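import Mathlib
import Pool.Agent.Y899.RainbowCyc

/-!
For every `k ≥ 3` and for both `n = 2 ^ k` and `n = 2 ^ k - 1` there is an optimal edge-colouring
of `K_n` without rainbow cycles of length `n - 2`.
-/

namespace Pool.Agent.Results.MP_4bc86c_co.PowersOfTwo

/-- `c` is a proper edge-colouring of the complete graph on `Fin n` with colours in `Fin m`: two
different edges `xy`, `xz` with a common vertex get different colours. The edge `xy` is the
unordered pair `s(x, y)`, the values of `c` at the pairs `s(x, x)` play no role. -/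
def Proper {n m : ℕ} (c : Sym2 (Fin n) → Fin m) : Prop :=
  ∀ x y z : Fin n, x ≠ y → x ≠ z → y ≠ z → c s(x, y) ≠ c s(x, z)

/-- `c` is optimal: it is proper, and no proper edge-colouring of the complete graph on `Fin n`
has fewer than `m` colours available. -/
def Optimal {n m : ℕ} (c : Sym2 (Fin n) → Fin m) : Prop :=
  Proper c ∧ ∀ (m' : ℕ) (c' : Sym2 (Fin n) → Fin m'), Proper c' → m ≤ m'

/-- The complete graph on `Fin n` has a cycle of length `l` whose edges have pairwise different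
colours. -/
def HasRainbowCycle {n m : ℕ} (c : Sym2 (Fin n) → Fin m) (l : ℕ) : Prop :=
  ∃ (v : Fin n) (p : (⊤ : SimpleGraph (Fin n)).Walk v v),
    p.IsCycle ∧ p.length = l ∧ (p.edges.map c).Nodup

theorem powers (k : ℕ) (hk : 3 ≤ k) :
    (∃ c : Sym2 (Fin (2 ^ k)) → Fin (2 ^ k - 1), Optimal c ∧
      ¬ HasRainbowCycle c (2 ^ k - 2) ∧ ¬ HasRainbowCycle c (2 ^ k - 3)) ∧
    (∃ c : Sym2 (Fin (2 ^ k - 1)) → Fin (2 ^ k - 1), Optimal c ∧
      ¬ HasRainbowCycle c (2 ^ k - 1 - 1) ∧ ¬ HasRainbowCycle c (2 ^ k - 1 - 2)) :=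
  Pool.Agent.Y899.Rainbow.main k hk

/-- It is not true that for all `n ≥ 5` every optimal edge-colouring of `K_n` has a rainbow cycle
of length `n - 2`. It fails for every `n = 2 ^ k` and every `n = 2 ^ k - 1` with `k ≥ 3`: there is
an optimal colouring of `K_(2 ^ k)` (with `2 ^ k - 1` colours) without rainbow cycles of length
`2 ^ k - 2` and `2 ^ k - 3`, and there is an optimal colouring of `K_(2 ^ k - 1)` (with `2 ^ k - 1`
colours) without rainbow cycles of length `(2 ^ k - 1) - 1` and `(2 ^ k - 1) - 2`. -/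
theorem result :
    (¬ ∀ n : ℕ, 5 ≤ n → ∀ (m : ℕ) (c : Sym2 (Fin n) → Fin m), Optimal c →
      HasRainbowCycle c (n - 2)) ∧
    ∀ k : ℕ, 3 ≤ k →
      (∃ c : Sym2 (Fin (2 ^ k)) → Fin (2 ^ k - 1), Optimal c ∧
        ¬ HasRainbowCycle c (2 ^ k - 2) ∧ ¬ HasRainbowCycle c (2 ^ k - 3)) ∧
      (∃ c : Sym2 (Fin (2 ^ k - 1)) → Fin (2 ^ k - 1), Optimal c ∧
        ¬ HasRainbowCycle c (2 ^ k - 1 - 1) ∧ ¬ HasRainbowCycle c (2 ^ k - 1 - 2)) := by
  refine ⟨?_, powers⟩
  intro h
  obtain ⟨c, hc, h1, -⟩ := (powers 3 le_rfl).1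
  exact h1 (h (2 ^ 3) (by norm_num) _ c hc)

end Pool.Agent.Results.MP_4bc86c_co.PowersOfTwo
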